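import Pool.Agent.H72.TR.Stm3

/-!
# Project TR (helper72), module BLOCKS
-/

set_option autoImplicit false

namespace Pool.Agent.H11.TR

open Finset Pool.Agent.H72.TR

/-- the block of the place `c` -/
def U0 (g w s c : ℕ) : ℕ :=
  if c < 2 * g * w then g + c / w
  else if c < 2 * g * w + s then 3 * g
  else 3 * g + 1 + (c - 2 * g * w - s) / w

theorem U0_low {g w s c : ℕ} (h : c < 2 * g * w) : U0 g w s c = g + c / w := by
  unfold U0
  rw [if_pos h]

theorem div_lt_two {g w c : ℕ} (h : c < 2 * g * w) : c / w < 2 * g :=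
  Nat.div_lt_of_lt_mul (by rw [mul_comm w]; exact h)

theorem U0_eq_iff {g w s : ℕ} (hw : 1 ≤ w) (k c : ℕ) :
    U0 g w s c = 3 * g + 1 + k ↔
      2 * g * w + s + k * w ≤ c ∧ c < 2 * g * w + s + k * w + w := by
  unfold U0
  split_ifs with h1 h2
  · have h3 := div_lt_two h1
    constructor
    · intro h
      omega
    · rintro ⟨h, -⟩
      omega
  · constructor
    · intro h
      omega
    · rintro ⟨h, -⟩
      omega
  · have e1 : k ≤ (c - 2 * g * w - s) / w ↔ k * w ≤ c - 2 * g * w - s :=
      Nat.le_div_iff_mul_le (by omega)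
    have e2 : (c - 2 * g * w - s) / w < k + 1 ↔ c - 2 * g * w - s < (k + 1) * w :=
      Nat.div_lt_iff_lt_mul (by omega)
    rw [add_mul, one_mul] at e2
    generalize (c - 2 * g * w - s) / w = q at e1 e2 ⊢
    generalize k * w = kw at e1 e2 ⊢
    generalize 2 * g * w = X at h1 h2 e1 e2 ⊢
    omega

theorem U0_mono (g w s : ℕ) : Monotone (U0 g w s) := by
  intro p q hpq
  have hz := Nat.zero_le ((q - 2 * g * w - s) / w)
  unfold U0
  split_ifs with h1 h2 h3 h4 h5 h6
  · exact Nat.add_le_add_left (Nat.div_le_div_right hpq) _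
  · have := div_lt_two h1
    omega
  · have := div_lt_two h1
    omega
  · omega
  · omega
  · omega
  · omega
  · omega
  · exact Nat.add_le_add_left (Nat.div_le_div_right (by omega)) _

theorem blocks : BLOCKS := by
  intro n g w s hw hg hn hs
  have hU : ∀ p : Fin n, Us n g w s p = U0 g w s p.1 := fun p => rfl
  have hgw : g ≤ g * w := Nat.le_mul_of_pos_right g hw
  have e2 : 2 * g * w = 2 * (g * w) := by ring
  have e5 : 5 * g * w = 5 * (g * w) := by ring
  have hdiv : ∀ a : ℕ, a < g * w → a / w < g := fun a ha =>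
    Nat.div_lt_of_lt_mul (by rw [mul_comm w]; exact ha)
  have hb : ∀ b : ℕ, g * w ≤ b → b / w = g + (b - g * w) / w := by
    intro b hb
    conv_lhs => rw [show b = (b - g * w) + g * w by omega]
    rw [Nat.add_mul_div_right _ _ (by omega), add_comm]
  have hA : ∀ a : ℕ, a < g * w → U0 g w s a = g + a / w := fun a ha => U0_low (by omega)
  have hB : ∀ b : ℕ, g * w ≤ b → b < 2 * g * w → U0 g w s b = 2 * g + (b - g * w) / w := by
    intro b h1 h2
    rw [U0_low h2, hb b h1]
    omega
  refine ⟨fun p q hpq => U0_mono g w s hpq, ?_, ?_, ?_⟩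
  · intro p
    rw [hU]
    have hp := p.2
    unfold U0
    split_ifs with h1 h2
    · have := div_lt_two h1
      omega
    · omega
    · have := Nat.div_le_self (p.1 - 2 * g * w - s) w
      omega
  · intro t ht
    rw [Tr, mem_filter] at ht
    obtain ⟨-, h1, h2, h3, -⟩ := ht
    rw [hU, hU, hA _ h1, hB _ h2 h3]
    have := hdiv _ h1
    have hz := Nat.zero_le ((t.2.1.1 - g * w) / w)
    omega
  · have hkey : ∀ t : Fin n × Fin n × Fin n, t ∈ Tr n g w s ↔
        t.1.1 < g * w ∧ g * w ≤ t.2.1.1 ∧ t.2.1.1 < 2 * g * w ∧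
          2 * g * w + s + (t.1.1 / w + (t.2.1.1 - g * w) / w) * w ≤ t.2.2.1 ∧
          t.2.2.1 < 2 * g * w + s + (t.1.1 / w + (t.2.1.1 - g * w) / w) * w + w := by
      intro t
      rw [Tr, mem_filter]
      constructor
      · rintro ⟨-, h1, h2, h3, h4⟩
        rw [hU, hU, hU, hA _ h1, hB _ h2 h3] at h4
        refine ⟨h1, h2, h3, (U0_eq_iff hw _ _).1 ?_⟩
        rw [h4]
        omega
      · rintro ⟨h1, h2, h3, h4⟩
        refine ⟨mem_univ _, h1, h2, h3, ?_⟩
        rw [hU, hU, hU, hA _ h1, hB _ h2 h3, (U0_eq_iff hw _ _).2 h4]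
        omega
    have hcard : (range (g * w) ×ˢ range (g * w) ×ˢ range w).card = g ^ 2 * w ^ 3 := by
      rw [card_product, card_product, card_range, card_range]
      ring
    rw [← hcard]
    refine card_nbij (fun t : Fin n × Fin n × Fin n => ((t.1.1, t.2.1.1 - g * w,
      t.2.2.1 - (2 * g * w + s + (t.1.1 / w + (t.2.1.1 - g * w) / w) * w)) : ℕ × ℕ × ℕ)) ?_ ?_ ?_
    · intro t ht
      obtain ⟨h1, h2, h3, h4, h5⟩ := (hkey t).1 ht
      simp only [coe_product, Set.mem_prod, coe_range, Set.mem_Iio]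
      refine ⟨h1, by omega, by omega⟩
    · intro t ht t' ht' h
      obtain ⟨h1, h2, h3, h4, h5⟩ := (hkey t).1 ht
      obtain ⟨h1', h2', h3', h4', h5'⟩ := (hkey t').1 ht'
      simp only [Prod.mk.injEq] at h
      obtain ⟨ha, hb', hc⟩ := h
      have hbe : t.2.1.1 = t'.2.1.1 := by omega
      rw [ha, hbe] at h4 h5 hc
      refine Prod.ext (Fin.ext ha) (Prod.ext (Fin.ext hbe) (Fin.ext ?_))
      omega
    · rintro ⟨a, b, c⟩ habc
      simp only [coe_product, Set.mem_prod, coe_range, Set.mem_Iio] at habc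
      obtain ⟨ha, hb', hc⟩ := habc
      have hk1 := hdiv a ha
      have hk2 := hdiv b hb'
      have hk : (a / w + b / w) * w + 2 * w ≤ 2 * (g * w) := by
        calc (a / w + b / w) * w + 2 * w = (a / w + b / w + 2) * w := by ring
          _ ≤ (2 * g) * w := Nat.mul_le_mul_right _ (by omega)
          _ = _ := by ring
      have hbb : g * w + b - g * w = b := by omega
      refine ⟨(⟨a, by omega⟩, ⟨g * w + b, by omega⟩,
        ⟨2 * g * w + s + (a / w + b / w) * w + c, by omega⟩), ?_, ?_⟩
      · refine (hkey _).2 ⟨ha, by simp, by simp only; omega, ?_, ?_⟩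
        · simp only [hbb]
          omega
        · simp only [hbb]
          omega
      · simp only [hbb, Prod.mk.injEq, true_and]
        omega

end Pool.Agent.H11.TR
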