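import Pool.Agent.H72.TR.Stm5

/-!
# Project TR (helper72): modules CHAINS and POW6
-/

set_option autoImplicit false

namespace Pool.Agent.H11.TR

open Finset Pool.Agent.H72.TR

/-- CHAINS: the labels of a row are nested, for lists with the same order. -/
theorem chains : CHAINS := by
  intro n x v h i
  have h1 : ∀ k k' : Fin n, x k < x k' → v k < v k' := by
    intro k k' hk
    have h2 := congrFun h (k, k')
    have h3 : decide (x k < x k') = decide (v k < v k') := h2
    have h4 : decide (x k < x k') = true := decide_eq_true hk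
    exact of_decide_eq_true (h3.symm.trans h4)
  by_contra hc
  rw [not_or] at hc
  obtain ⟨ha, hb⟩ := hc
  push Not at ha hb
  obtain ⟨⟨a, b, k⟩, ht, hx, hv⟩ := ha
  obtain ⟨⟨a', b', k'⟩, ht', hv', hx'⟩ := hb
  have e : (a', b') = (a, b) := ht'.trans ht.symm
  obtain ⟨rfl, rfl⟩ := Prod.mk.inj e
  unfold Lab sm at hx hv hv' hx'
  have g1 := of_decide_eq_true hx
  have g2 := of_decide_eq_true hv'
  have g3 : ¬ _ := fun h => hv (decide_eq_true h)
  have g4 : ¬ _ := fun h => hx' (decide_eq_true h)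
  simp only [] at g1 g2 g3 g4
  have g5 := h1 k k' (by linarith)
  linarith

/-- POW6: numbers. -/
theorem pow6 : POW6 := by
  intro L
  by_cases hL : L ≤ 7
  · interval_cases L <;> norm_num
  · have h : ∀ m : ℕ, (m + 9) ^ 6 ≤ 4152 * 2 ^ (m + 7) := by
      intro m
      induction m with
      | zero => norm_num
      | succ m ih =>
        have h1 : (m + 1 + 9) ^ 6 ≤ 2 * (m + 9) ^ 6 := by
          have h2 : 2 * (m + 9) ^ 6 = (m + 1 + 9) ^ 6 + (62882 + 108588 * m + 46830 * m ^ 2 +
              9160 * m ^ 3 + 930 * m ^ 4 + 48 * m ^ 5 + m ^ 6) := by ring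
          rw [h2]
          exact Nat.le_add_right _ _
        calc (m + 1 + 9) ^ 6 ≤ 2 * (m + 9) ^ 6 := h1
          _ ≤ 2 * (4152 * 2 ^ (m + 7)) := Nat.mul_le_mul_left _ ih
          _ = 4152 * 2 ^ (m + 1 + 7) := by ring
    obtain ⟨m, rfl⟩ := Nat.exists_eq_add_of_le (show 7 ≤ L by omega)
    have := h m
    rwa [show 7 + m + 2 = m + 9 by omega, show 7 + m = m + 7 by omega]

end Pool.Agent.H11.TR
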