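import Pool.Agent.H72.TR.Stm4

/-!
# Project TR (helper72), module PATS: the number of sign patterns (Sauer-Shelah)
-/

set_option autoImplicit false

namespace Pool.Agent.H11.TR

open Finset Pool.Agent.H72.TR

/-- the index set of the forms -/
abbrev Ix (n : ℕ) : Type := (Fin n × Fin n) ⊕ (Fin n × Fin n × Fin n)

/-- the values of the forms -/
def ev {n : ℕ} : Ix n → (Fin n → ℤ) → ℤ
  | Sum.inl p, x => x p.2 - x p.1
  | Sum.inr t, x => sm x t

/-- the forms -/
noncomputable def fo {n : ℕ} : Ix n → Module.Dual ℚ (Fin n → ℚ)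
  | Sum.inl p => LinearMap.proj (R := ℚ) (φ := fun _ : Fin n => ℚ) p.2 - LinearMap.proj p.1
  | Sum.inr t => LinearMap.proj (R := ℚ) (φ := fun _ : Fin n => ℚ) t.1 + LinearMap.proj t.2.1 -
      LinearMap.proj t.2.2

theorem fo_ev {n : ℕ} (i : Ix n) (x : Fin n → ℤ) : fo i (fun u => (x u : ℚ)) = (ev i x : ℚ) := by
  rcases i with p | t
  · simp [fo, ev]
  · simp [fo, ev, sm]

/-- the set of the positive forms -/
def pos {n : ℕ} (x : Fin n → ℤ) : Finset (Ix n) := univ.filter fun i => 0 < ev i x

theorem card_image_comp_le {X A B : Type*} [Fintype X] [DecidableEq A] {_ : DecidableEq B}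
    (S : X → A) (g : A → B) : (univ.image fun x => g (S x)).card ≤ (univ.image S).card := by
  have : (univ.image fun x => g (S x)) = (univ.image S).image g := by
    rw [image_image]; rfl
  rw [this]
  exact card_image_le

theorem nonpos {n : ℕ} {X : Type} [Fintype X] (xx : X → Fin n → ℤ) {s : Finset (Ix n)}
    (hs : (univ.image fun x => pos (xx x)).Shatters s) (g : s → ℚ)
    (hg : ∑ i : s, g i • fo (i : Ix n) = 0) : ∀ i, g i ≤ 0 := by
  intro i
  by_contra hi
  push Not at hi
  obtain ⟨u, hu, hsu⟩ := hs (t := (univ.filter fun i : s => 0 < g i).map (Function.Embedding.subtype _))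
    (by
      intro j hj
      rw [mem_map] at hj
      obtain ⟨k, -, rfl⟩ := hj
      exact k.2)
  rw [mem_image] at hu
  obtain ⟨x, -, rfl⟩ := hu
  have hiff : ∀ j : s, 0 < ev (j : Ix n) (xx x) ↔ 0 < g j := by
    intro j
    have h1 : (j : Ix n) ∈ s ∩ pos (xx x) ↔ 0 < ev (j : Ix n) (xx x) := by
      rw [mem_inter, pos, mem_filter]
      exact ⟨fun h => h.2.2, fun h => ⟨j.2, mem_univ _, h⟩⟩
    rw [← h1, hsu, mem_map]
    constructor
    · rintro ⟨k, hk, hkj⟩
      have : k = j := Subtype.ext hkj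
      rw [← this]
      exact (mem_filter.1 hk).2
    · intro h
      exact ⟨j, mem_filter.2 ⟨mem_univ _, h⟩, rfl⟩
  have hsum : ∑ j : s, g j * (ev (j : Ix n) (xx x) : ℚ) = 0 := by
    have h := LinearMap.congr_fun hg (fun u => (xx x u : ℚ))
    rw [LinearMap.sum_apply] at h
    simpa only [LinearMap.smul_apply, smul_eq_mul, fo_ev, LinearMap.zero_apply] using h
  have hnn : ∀ j ∈ (univ : Finset s), 0 ≤ g j * (ev (j : Ix n) (xx x) : ℚ) := by
    intro j _
    by_cases hj : 0 < g j
    · have := (hiff j).2 hj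
      positivity
    · have h2 : ev (j : Ix n) (xx x) ≤ 0 := by
        by_contra hcon
        push Not at hcon
        exact hj ((hiff j).1 hcon)
      have h3 : (ev (j : Ix n) (xx x) : ℚ) ≤ 0 := by exact_mod_cast h2
      exact mul_nonneg_of_nonpos_of_nonpos (not_lt.1 hj) h3
  have h0 := (sum_eq_zero_iff_of_nonneg hnn).1 hsum i (mem_univ i)
  have h1 : 0 < (ev (i : Ix n) (xx x) : ℚ) := by exact_mod_cast (hiff i).2 hi
  exact absurd h0 (mul_pos hi h1).ne'

theorem shat_le {n : ℕ} {X : Type} [Fintype X] (xx : X → Fin n → ℤ) {s : Finset (Ix n)}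
    (hs : (univ.image fun x => pos (xx x)).Shatters s) : s.card ≤ n := by
  have hli : LinearIndependent ℚ (fun i : s => fo (i : Ix n)) := by
    rw [Fintype.linearIndependent_iff]
    intro g hg i
    refine le_antisymm (nonpos xx hs g hg i) ?_
    have h := nonpos xx hs (fun j => -g j) (by
      simp only [neg_smul, sum_neg_distrib, hg, neg_zero]) i
    simpa using h
  have h := hli.fintype_card_le_finrank
  rw [Subspace.dual_finrank_eq, Module.finrank_fin_fun, Fintype.card_coe] at h
  exact h

theorem sum_choose_le (m n : ℕ) : ∑ k ∈ range (n + 1), m.choose k ≤ (m + 1) ^ n := by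
  rw [add_pow]
  refine sum_le_sum fun k hk => ?_
  rw [mem_range] at hk
  rw [one_pow, mul_one]
  calc m.choose k ≤ m ^ k := Nat.choose_le_pow _ _
    _ ≤ m ^ k * n.choose k := Nat.le_mul_of_pos_right _ (Nat.choose_pos (by omega))

/-- the pattern from the set of the positive forms -/
def gg {n : ℕ} (S : Finset (Ix n)) : (Fin n × Fin n → Bool) × (Fin n × Fin n × Fin n → Bool) :=
  (fun p => decide (Sum.inl p ∈ S), fun t => decide (Sum.inr t ∈ S))

theorem pats : PATS := by
  intro n X _ xx
  have hF : (fun x => (Ord (xx x), Lab (xx x))) = fun x : X => gg (pos (xx x)) := by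
    funext x
    refine Prod.ext (funext fun p => ?_) (funext fun t => ?_)
    · show decide (xx x p.1 < xx x p.2) = decide (Sum.inl p ∈ pos (xx x))
      refine decide_eq_decide.2 ?_
      rw [pos, mem_filter, ev, sub_pos]
      exact ⟨fun h => ⟨mem_univ _, h⟩, fun h => h.2⟩
    · show decide (0 < sm (xx x) t) = decide (Sum.inr t ∈ pos (xx x))
      refine decide_eq_decide.2 ?_
      rw [pos, mem_filter, ev]
      exact ⟨fun h => ⟨mem_univ _, h⟩, fun h => h.2⟩
  rw [hF]
  refine le_trans (card_image_comp_le (A := Finset (Ix n)) (fun x => pos (xx x)) gg) ?_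
  set 𝒜 : Finset (Finset (Ix n)) := univ.image fun x => pos (xx x) with h𝒜
  have hvc : 𝒜.vcDim ≤ n := by
    unfold vcDim
    refine Finset.sup_le fun s hs => ?_
    exact shat_le xx (mem_shatterer.1 hs)
  have hcI : Fintype.card (Ix n) = n ^ 3 + n ^ 2 := by
    simp only [Ix, Fintype.card_sum, Fintype.card_prod, Fintype.card_fin]
    ring
  calc 𝒜.card ≤ 𝒜.shatterer.card := card_le_card_shatterer 𝒜
    _ ≤ ∑ k ∈ Iic 𝒜.vcDim, (Fintype.card (Ix n)).choose k := card_shatterer_le_sum_vcDim
    _ ≤ ∑ k ∈ range (n + 1), (Fintype.card (Ix n)).choose k := by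
        refine sum_le_sum_of_subset fun k hk => ?_
        rw [mem_Iic] at hk
        rw [mem_range]
        omega
    _ ≤ (Fintype.card (Ix n) + 1) ^ n := sum_choose_le _ _
    _ = _ := by rw [hcI]

end Pool.Agent.H11.TR
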